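import Mathlib
import Pool.Agent.Helper166.TuzaZ

set_option autoImplicit false

namespace Pool.Agent.Results.MP_dcb632_co.MinDegreePacking

/-- `P` is an edge-disjoint family of copies of `K_r` in `G`: every member is (the vertex set of)
a clique of `G` with exactly `r` vertices, and no two different members contain a common pair of
distinct vertices, i.e. a common edge. -/
def IsEdgeDisjointFamily {n : ℕ} (G : SimpleGraph (Fin n)) (r : ℕ)
    (P : Finset (Finset (Fin n))) : Prop :=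
  (∀ A ∈ P, G.IsNClique r A) ∧
  ∀ A ∈ P, ∀ B ∈ P, A ≠ B → ∀ u v, u ≠ v → ¬ (u ∈ A ∧ v ∈ A ∧ u ∈ B ∧ v ∈ B)

open Classical in
/-- `ν_r(G)`: the largest size of an edge-disjoint family of copies of `K_r` in `G`. -/
noncomputable def nu (r : ℕ) {n : ℕ} (G : SimpleGraph (Fin n)) : ℕ :=
  (Finset.univ.filter fun P : Finset (Finset (Fin n)) => IsEdgeDisjointFamily G r P).sup
    Finset.card

/-- Tuza's question has a positive answer: for every `r ≥ 3` there is `f(n) = o(n ^ 2)` such that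
every graph `G` on `n` vertices with `(r-2)/(2r-2) * n ^ 2 + k` edges, `k ≥ 0`, satisfies
`ν_r(G) ≥ (2/r) k - f(n)`. -/
theorem tuza :
    ∀ r : ℕ, 3 ≤ r → ∃ f : ℕ → ℝ,
      Filter.Tendsto (fun n : ℕ => f n / (n : ℝ) ^ 2) Filter.atTop (nhds 0) ∧
      ∀ (n : ℕ) (k : ℝ), 0 ≤ k → ∀ G : SimpleGraph (Fin n),
        (G.edgeSet.ncard : ℝ) = ((r : ℝ) - 2) / (2 * r - 2) * (n : ℝ) ^ 2 + k →
        2 / (r : ℝ) * k - f n ≤ (nu r G : ℝ) := by
  classical
  intro r hr
  have hr' : (3 : ℝ) ≤ r := by exact_mod_cast hr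
  set θ : ℝ := ((r : ℝ) - 2) / (r - 1) with hθ
  -- the deficiency of a graph
  let g : (n : ℕ) → SimpleGraph (Fin n) → ℝ := fun n G =>
    max 0 ((2 * (G.edgeFinset.card : ℝ) - θ * (n : ℝ) ^ 2) / r - nu r G)
  let f : ℕ → ℝ := fun n => ⨆ G : SimpleGraph (Fin n), g n G
  have hbdd : ∀ n, BddAbove (Set.range (g n)) := fun n => (Set.finite_range _).bddAbove
  have hgf : ∀ n G, g n G ≤ f n := fun n G => le_ciSup (hbdd n) G
  have hf0 : ∀ n, 0 ≤ f n := fun n => (le_max_left _ _).trans (hgf n ⊥)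
  have hnu : ∀ (n : ℕ) (G : SimpleGraph (Fin n)) (P : Finset (Finset (Fin n))),
      IsEdgeDisjointFamily G r P → P.card ≤ nu r G := by
    intro n G P hP
    unfold nu
    refine Finset.le_sup (f := Finset.card) ?_
    exact Finset.mem_filter.2 ⟨Finset.mem_univ _, hP⟩
  refine ⟨f, ?_, ?_⟩
  · rw [Metric.tendsto_atTop]
    intro η hη
    obtain ⟨n₀, hn₀⟩ := Pool.Agent.Helper166.Tuza.main_eps (r := r) (by omega) hθ
      (η := η / 2) (by positivity)
    refine ⟨max n₀ 1, fun n hn => ?_⟩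
    have hn1 : 1 ≤ n := (le_max_right _ _).trans hn
    have hnpos : (0 : ℝ) < (n : ℝ) ^ 2 := by
      have : (0 : ℝ) < n := by exact_mod_cast hn1
      positivity
    have h1 : f n ≤ η / 2 * (n : ℝ) ^ 2 := by
      refine ciSup_le fun G => ?_
      refine max_le (by positivity) ?_
      obtain ⟨P, hP, hcard⟩ := hn₀ n ((le_max_left _ _).trans hn) G
      have h2 : (P.card : ℝ) ≤ nu r G := by exact_mod_cast hnu n G P hP
      linarith
    rw [Real.dist_eq, sub_zero, abs_of_nonneg (div_nonneg (hf0 n) hnpos.le),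
      div_lt_iff₀ hnpos]
    have h3 : 0 < η * (n : ℝ) ^ 2 := by positivity
    linarith
  · intro n k _ G hG
    have h1 := (le_max_right _ _).trans (hgf n G)
    have h2 : (G.edgeFinset.card : ℝ) = (G.edgeSet.ncard : ℝ) := by
      rw [Set.ncard_eq_toFinset_card']
      rfl
    have h3 : (2 * (G.edgeFinset.card : ℝ) - θ * (n : ℝ) ^ 2) / r = 2 / (r : ℝ) * k := by
      rw [h2, hG, hθ]
      have h4 : (r : ℝ) - 1 ≠ 0 := by linarith
      have h5 : (2 * (r : ℝ) - 2) ≠ 0 := by linarith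
      have h6 : (r : ℝ) ≠ 0 := by linarith
      have h7 : 2 * (((r : ℝ) - 2) / (2 * r - 2)) = ((r : ℝ) - 2) / (r - 1) := by
        rw [show (2 * (r : ℝ) - 2) = 2 * (r - 1) by ring]
        field_simp
      have h8 : 2 * (((r : ℝ) - 2) / (2 * r - 2) * (n : ℝ) ^ 2 + k) -
          ((r : ℝ) - 2) / (r - 1) * (n : ℝ) ^ 2 = 2 * k := by
        rw [← h7]
        ring
      rw [h8]
      ring
    rw [h3] at h1
    linarith

/-- `f_r(n, δ)`: the smallest value of `ν_r(G)` over all graphs `G` on `n` vertices in which every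
vertex has degree at least `δ`. (For `δ ≤ n - 1` such graphs exist.) -/
noncomputable def fr (r n δ : ℕ) : ℕ :=
  sInf {m : ℕ | ∃ G : SimpleGraph (Fin n), (∀ v, δ ≤ (G.neighborSet v).ncard) ∧ nu r G = m}

/-- For every `r ≥ 3` there is `f(n) = o(n ^ 2)` such that, for all `n` and all `δ ≤ n - 1`,
`f_r(n, δ) ≥ (1/r) (δ n - (r-2)/(r-1) n ^ 2) - f(n)`. -/
theorem result :
    ∀ r : ℕ, 3 ≤ r → ∃ f : ℕ → ℝ,
      Filter.Tendsto (fun n : ℕ => f n / (n : ℝ) ^ 2) Filter.atTop (nhds 0) ∧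
      ∀ n δ : ℕ, δ + 1 ≤ n →
        1 / (r : ℝ) * ((δ : ℝ) * n - ((r : ℝ) - 2) / (r - 1) * (n : ℝ) ^ 2) - f n ≤
          (fr r n δ : ℝ) := by
  classical
  intro r hr
  have hr' : (3 : ℝ) ≤ r := by exact_mod_cast hr
  obtain ⟨f, hf, hmain⟩ := tuza r hr
  refine ⟨fun n => |f n|, ?_, ?_⟩
  · have h := hf.abs
    rw [abs_zero] at h
    refine h.congr fun n => ?_
    rw [abs_div, abs_of_nonneg (sq_nonneg (n : ℝ))]
  · intro n δ hδ
    -- the minimum is attained
    have hne : {m : ℕ | ∃ G : SimpleGraph (Fin n),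
        (∀ v, δ ≤ (G.neighborSet v).ncard) ∧ nu r G = m}.Nonempty := by
      refine ⟨nu r (⊤ : SimpleGraph (Fin n)), ⊤, fun v => ?_, rfl⟩
      have h1 : ((⊤ : SimpleGraph (Fin n)).neighborSet v).ncard = n - 1 := by
        rw [Set.ncard_eq_toFinset_card']
        have h2 : ((⊤ : SimpleGraph (Fin n)).neighborSet v).toFinset.card =
            (⊤ : SimpleGraph (Fin n)).degree v := by
          rw [SimpleGraph.degree, SimpleGraph.neighborFinset_def]
        rw [h2, SimpleGraph.complete_graph_degree, Fintype.card_fin]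
      omega
    obtain ⟨G, hG, hGm⟩ := Nat.sInf_mem hne
    have hfr : fr r n δ = nu r G := hGm.symm
    rw [hfr]
    -- the number of edges
    have hdeg : ∀ v, δ ≤ G.degree v := by
      intro v
      have h1 := hG v
      rw [Set.ncard_eq_toFinset_card'] at h1
      have h2 : (G.neighborSet v).toFinset.card = G.degree v := by
        rw [SimpleGraph.degree, SimpleGraph.neighborFinset_def]
      rw [← h2]
      exact h1
    have hsum : n * δ ≤ 2 * G.edgeFinset.card := by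
      rw [← SimpleGraph.sum_degrees_eq_twice_card_edges]
      calc n * δ = ∑ _v : Fin n, δ := by simp
        _ ≤ ∑ v : Fin n, G.degree v := Finset.sum_le_sum fun v _ => hdeg v
    have hcard : (G.edgeFinset.card : ℝ) = (G.edgeSet.ncard : ℝ) := by
      rw [Set.ncard_eq_toFinset_card']
      rfl
    have hsum' : (n : ℝ) * δ ≤ 2 * (G.edgeSet.ncard : ℝ) := by
      rw [← hcard]
      exact_mod_cast hsum
    set e : ℝ := (G.edgeSet.ncard : ℝ) with he
    set θ : ℝ := ((r : ℝ) - 2) / (r - 1) with hθ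
    have h7 : ((r : ℝ) - 2) / (2 * r - 2) = θ / 2 := by
      have h4 : (r : ℝ) - 1 ≠ 0 := by linarith
      rw [hθ, show (2 * (r : ℝ) - 2) = 2 * (r - 1) by ring]
      field_simp
    have hrpos : (0 : ℝ) < r := by linarith
    have hmono : 1 / (r : ℝ) * ((δ : ℝ) * n - θ * (n : ℝ) ^ 2) ≤
        2 / (r : ℝ) * (e - θ / 2 * (n : ℝ) ^ 2) := by
      have h8 : 2 / (r : ℝ) * (e - θ / 2 * (n : ℝ) ^ 2) =
          1 / (r : ℝ) * (2 * e - θ * (n : ℝ) ^ 2) := by ring
      rw [h8]
      refine mul_le_mul_of_nonneg_left ?_ (by positivity)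
      nlinarith [hsum']
    have habs : f n ≤ |f n| := le_abs_self _
    rcases le_or_gt 0 (e - θ / 2 * (n : ℝ) ^ 2) with hk | hk
    · have h9 := hmain n (e - θ / 2 * (n : ℝ) ^ 2) hk G (by rw [h7, ← he]; ring)
      have h10 : 1 / (r : ℝ) * ((δ : ℝ) * n - θ * (n : ℝ) ^ 2) - |f n| ≤ (nu r G : ℝ) := by
        linarith
      exact h10
    · have h11 : 2 / (r : ℝ) * (e - θ / 2 * (n : ℝ) ^ 2) ≤ 0 := by
        have : (0 : ℝ) < 2 / (r : ℝ) := by positivity
        nlinarith
      have h12 : (0 : ℝ) ≤ (nu r G : ℝ) := Nat.cast_nonneg _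
      have h13 : 0 ≤ |f n| := abs_nonneg _
      have h10 : 1 / (r : ℝ) * ((δ : ℝ) * n - θ * (n : ℝ) ^ 2) - |f n| ≤ (nu r G : ℝ) := by
        linarith
      exact h10

end Pool.Agent.Results.MP_dcb632_co.MinDegreePacking
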